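import Pool.Agent.Helper98.EX.Stmts

namespace Pool.Agent.Helper98.EX

open Finset

theorem coal_step {N : ℕ} {r l : ℕ → ℝ} {S : Finset ℕ} {G H : Cfg N → ℝ} (h : Adm N r l)
    {η ξ ζ : Cfg N} (h0 : G η - G ξ ≤ H ζ)
    (hR : ∀ x, 1 ≤ x → x < N → G (RmS S x η) - G (RmS S x ξ) ≤ H (RmS S x ζ))
    (hL : ∀ x, 1 ≤ x → x < N → G (LmS S x η) - G (LmS S x ξ) ≤ H (LmS S x ζ)) :
    stp r l S G η - stp r l S G ξ ≤ stp r l S H ζ := by
  rw [stp_eq, stp_eq, stp_eq]
  have h1 : (1 - qtot N r l) * G η - (1 - qtot N r l) * G ξ ≤ (1 - qtot N r l) * H ζ := by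
    rw [← mul_sub]
    exact mul_le_mul_of_nonneg_left h0 (by linarith [qtot_le_one h])
  have h2 : (∑ x ∈ full N, (r x / (2 * N) * G (RmS S x η) + l x / (2 * N) * G (LmS S x η))) -
      ∑ x ∈ full N, (r x / (2 * N) * G (RmS S x ξ) + l x / (2 * N) * G (LmS S x ξ)) ≤
      ∑ x ∈ full N, (r x / (2 * N) * H (RmS S x ζ) + l x / (2 * N) * H (LmS S x ζ)) := by
    rw [← Finset.sum_sub_distrib]
    apply Finset.sum_le_sum
    intro x hx
    rw [full, Finset.mem_Ico] at hx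
    obtain ⟨a, b, c, d⟩ := h x hx.1 hx.2
    have e1 : r x / (2 * (N : ℝ)) * (G (RmS S x η) - G (RmS S x ξ)) ≤
        r x / (2 * N) * H (RmS S x ζ) :=
      mul_le_mul_of_nonneg_left (hR x hx.1 hx.2) (by positivity)
    have e2 : l x / (2 * (N : ℝ)) * (G (LmS S x η) - G (LmS S x ξ)) ≤
        l x / (2 * N) * H (LmS S x ζ) :=
      mul_le_mul_of_nonneg_left (hL x hx.1 hx.2) (by positivity)
    linarith
  linarith

theorem st_COAL : ST_COAL := by
  intro N k r l m f η ξ ζ hk h hη hξ hζ hη1 hξ1 hf0 hf1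
  have htop : ∀ {χ : Cfg N}, ht χ 0 = k → hle 0 (top N k) χ → χ = top N k :=
    fun h1 h2 => hle_antisymm (hle_top hk h1) h2
  induction m generalizing η ξ ζ with
  | zero =>
    rw [ev_zero]
    show f η - f ξ ≤ 1 - ind {top N k} ζ
    by_cases hz : ζ = top N k
    · subst hz
      rw [htop hη hη1, htop hξ hξ1, ind_of_mem (Set.mem_singleton _)]; simp
    · rw [ind_of_not_mem (by simpa using hz)]
      linarith [hf1 η, hf0 ξ]
  | succ m ih =>
    rw [ev_succ]
    show stp r l (full N) (ev r l (fun _ => full N) m f) η -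
      stp r l (full N) (ev r l (fun _ => full N) m f) ξ ≤
      (1 - ind {top N k} ζ) * stp r l (full N) (nohit r l (full N) {top N k} m) ζ
    by_cases hz : ζ = top N k
    · subst hz
      rw [htop hη hη1, htop hξ hξ1, ind_of_mem (Set.mem_singleton _)]; simp
    · rw [ind_of_not_mem (by simpa using hz), sub_zero, one_mul]
      apply coal_step h (ih _ _ _ hη hξ hζ hη1 hξ1)
      · intro x _ _
        exact ih _ _ _ ((ht_RmS_zero _ η x).trans hη) ((ht_RmS_zero _ ξ x).trans hξ)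
          ((ht_RmS_zero _ ζ x).trans hζ) (hle_RmS hη1 _ x) (hle_RmS hξ1 _ x)
      · intro x _ _
        exact ih _ _ _ ((ht_LmS_zero _ η x).trans hη) ((ht_LmS_zero _ ξ x).trans hξ)
          ((ht_LmS_zero _ ζ x).trans hζ) (hle_LmS hη1 _ x) (hle_LmS hξ1 _ x)

end Pool.Agent.Helper98.EX
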