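import Pool.Agent.Helper98.EX.Stmts

namespace Pool.Agent.Helper98.EX

open Finset

theorem rate_step {N k : ℕ} {r l l' : ℕ → ℝ} {S : Finset ℕ} {G : Cfg N → ℝ}
    (hl : ∀ x, 1 ≤ x → x < N → l x ≤ l' x) (hG : Inc k G) {η : Cfg N} (hη : ht η 0 = k) :
    stp r l' S G η ≤ stp r l S G η := by
  unfold stp
  have h1 : (∑ x ∈ full N, (r x * (G (RmS S x η) - G η) + l' x * (G (LmS S x η) - G η))) ≤
      ∑ x ∈ full N, (r x * (G (RmS S x η) - G η) + l x * (G (LmS S x η) - G η)) := by
    apply Finset.sum_le_sum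
    intro x hx
    rw [full, Finset.mem_Ico] at hx
    have h2 := hl x hx.1 hx.2
    have h3 : G (LmS S x η) ≤ G η :=
      hG _ _ ((ht_LmS_zero S η x).trans hη) hη (hle_LmS_self S x η)
    nlinarith
  have h4 : (0 : ℝ) ≤ 2 * N := by positivity
  have := div_le_div_of_nonneg_right h1 h4
  linarith

theorem st_RATE : ST_RATE := by
  intro N k r l l' σ m f η h h' hl hf hη
  induction m generalizing σ η with
  | zero => exact le_rfl
  | succ m ih =>
    rw [ev_succ, ev_succ]
    refine le_trans ?_ (rate_step hl (ev_inc h hf _ m) hη)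
    apply stp_couple h' (ih _ _ hη)
    · intro x _ _; exact ih _ _ ((ht_RmS_zero _ η x).trans hη)
    · intro x _ _; exact ih _ _ ((ht_LmS_zero _ η x).trans hη)

end Pool.Agent.Helper98.EX
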